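import Mathlib

set_option autoImplicit false
set_option maxSynthPendingDepth 3

namespace Pool.Agent.Results.MP_c0911c_al.Critical

/-- Terms in the language `(+, -, 0, ·)` of rings, in countably many variables. -/
inductive Tm : Type
  | var : ℕ → Tm
  | zero : Tm
  | add : Tm → Tm → Tm
  | neg : Tm → Tm
  | mul : Tm → Tm → Tm

/-- Value of a term under an assignment of the variables. -/
def Tm.eval {R : Type} [NonUnitalRing R] (v : ℕ → R) : Tm → R
  | .var n => v n
  | .zero => 0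
  | .add s t => s.eval v + t.eval v
  | .neg s => -s.eval v
  | .mul s t => s.eval v * t.eval v

/-- The identity `s = t` holds in `R`. -/
def Holds (s t : Tm) (R : Type) [NonUnitalRing R] : Prop :=
  ∀ v : ℕ → R, s.eval v = t.eval v

/-- Some identity holds in every proper quotient ring of `R` but fails in `R`. -/
def IsCritical (R : Type) [NonUnitalRing R] : Prop :=
  ∃ s t : Tm, (∀ I : TwoSidedIdeal R, I ≠ ⊥ → Holds s t I.ringCon.Quotient) ∧ ¬ Holds s t R

lemma eval_coe {R : Type} [NonUnitalRing R] (c : RingCon R) (v : ℕ → R) (s : Tm) :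
    s.eval (fun i => (v i : c.Quotient)) = (s.eval v : R) := by
  induction s with
  | var n => rfl
  | zero => rfl
  | add s t a b => simp only [Tm.eval, a, b]; rfl
  | neg s a => simp only [Tm.eval, a]; rfl
  | mul s t a b => simp only [Tm.eval, a, b]; rfl

lemma holds_iff {R : Type} [NonUnitalRing R] (I : TwoSidedIdeal R) (s t : Tm) :
    Holds s t I.ringCon.Quotient ↔ ∀ v : ℕ → R, s.eval v - t.eval v ∈ I := by
  refine ⟨fun h v => ?_, fun h v => ?_⟩
  · have := h fun i => (v i : I.ringCon.Quotient)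
    rwa [eval_coe, eval_coe, RingCon.eq, I.rel_iff] at this
  · choose u hu using fun i => Quotient.exists_rep (v i)
    obtain rfl : v = fun i => (u i : I.ringCon.Quotient) := funext fun i => (hu i).symm
    rw [eval_coe, eval_coe, RingCon.eq, I.rel_iff]
    exact h u

/-- renaming of the variables -/
def Tm.shift : Tm → Tm
  | .var n => .var (n + 1)
  | .zero => .zero
  | .add s t => .add s.shift t.shift
  | .neg s => .neg s.shift
  | .mul s t => .mul s.shift t.shift

lemma eval_shift {R : Type} [NonUnitalRing R] (v : ℕ → R) (s : Tm) :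
    s.shift.eval v = s.eval fun i => v (i + 1) := by
  induction s <;> simp_all [Tm.shift, Tm.eval]

lemma exists_zsmul (n : ℤ) : ∃ f : Tm → Tm, ∀ (R : Type) [NonUnitalRing R] (v : ℕ → R) (s : Tm),
    (f s).eval v = n • s.eval v := by
  induction n using Int.induction_on with
  | zero => exact ⟨fun _ => .zero, fun R _ v s => by simp [Tm.eval]⟩
  | succ n h =>
    obtain ⟨f, hf⟩ := h
    exact ⟨fun s => .add (f s) s, fun R _ v s => by simp [Tm.eval, hf, add_smul]⟩
  | pred n h =>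
    obtain ⟨f, hf⟩ := h
    exact ⟨fun s => .add (f s) s.neg, fun R _ v s => by
      simp only [Tm.eval, hf, one_smul, sub_eq_add_neg, add_smul, neg_smul]⟩

lemma exists_N (S : Type) [Monoid S] [Finite S] :
    ∃ N, ∀ t : S, t ^ (N + 1 + (N + 1)) = t ^ (N + 1) := by
  have h : ∀ t : S, ∃ a d : ℕ, 0 < d ∧ t ^ (a + d) = t ^ a := by
    intro t
    obtain ⟨a, b, hab, e⟩ := Finite.exists_ne_map_eq_of_infinite fun n : ℕ => t ^ n
    rcases lt_or_gt_of_ne hab with l | l
    · exact ⟨a, b - a, by omega, by rw [Nat.add_sub_cancel' l.le]; exact e.symm⟩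
    · exact ⟨b, a - b, by omega, by rw [Nat.add_sub_cancel' l.le]; exact e⟩
  choose a d hd e using h
  have := Fintype.ofFinite S
  have hpos : 0 < ∏ t, (a t + 1) * d t := Finset.prod_pos fun t _ => Nat.mul_pos (by omega) (hd t)
  refine ⟨∏ t, (a t + 1) * d t - 1, fun t => ?_⟩
  rw [Nat.sub_add_cancel hpos]
  have h1 := Finset.dvd_prod_of_mem (fun t => (a t + 1) * d t) (Finset.mem_univ t)
  obtain ⟨k, hk⟩ := Dvd.dvd.trans (Dvd.intro_left _ rfl) h1
  obtain ⟨j, hj⟩ := Nat.exists_eq_add_of_le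
    ((Nat.le_succ _).trans (Nat.le_of_dvd hpos (Dvd.dvd.trans (Dvd.intro _ rfl) h1)))
  have h2 : ∀ k, t ^ (a t + d t * k) = t ^ a t := by
    intro k
    induction k with
    | zero => simp
    | succ k ih => rw [mul_add, mul_one, ← add_assoc, pow_add, ih, ← pow_add, e]
  generalize ∏ t, (a t + 1) * d t = N at hk hj ⊢
  conv_lhs => rw [show N + N = a t + d t * k + j by omega]
  rw [pow_add, h2, ← pow_add, ← hj]

variable (R : Type) [NonUnitalCommRing R]

/-- the multiplication operators -/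
def S : Subring (AddMonoid.End R) where
  carrier := {t | ∃ (n : ℤ) (x : R), ∀ y, t y = n • y + x * y}
  mul_mem' := by
    rintro s t ⟨n, x, h⟩ ⟨m, z, h'⟩
    exact ⟨n * m, n • z + m • x + x * z, fun y => by
      show s (t y) = _
      simp only [h, h', mul_smul, add_mul, mul_add, mul_assoc, add_assoc, smul_add, smul_mul_assoc,
        mul_smul_comm]⟩
  one_mem' := ⟨1, 0, by simp⟩
  add_mem' := by
    rintro s t ⟨n, x, h⟩ ⟨m, z, h'⟩
    exact ⟨n + m, x + z, fun y => by
      show s y + t y = _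
      simp only [h, h', add_smul, add_mul]; abel⟩
  zero_mem' := ⟨0, 0, by simp⟩
  neg_mem' := by
    rintro s ⟨n, x, h⟩
    exact ⟨-n, -x, fun y => by show -s y = _; simp [h, add_comm]⟩

instance : CommRing (S R) :=
  { (S R).toRing with
    mul_comm := by
      rintro ⟨s, n, x, h⟩ ⟨t, m, z, h'⟩
      ext y
      show s (t y) = t (s y)
      simp only [h, h', smul_add, mul_add, mul_smul_comm, smul_comm n m, mul_left_comm x z]
      abel }

variable {R}

/-- the operator given by an integer and a ring element -/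
def L (n : ℤ) (x : R) : S R :=
  ⟨AddMonoidHom.mk' (fun y => n • y + x * y) (fun a b => by rw [smul_add, mul_add]; abel),
    n, x, fun _ => rfl⟩

lemma L_apply (n : ℤ) (x y : R) : (L n x).1 y = n • y + x * y := rfl

/-- the ideal generated by one element -/
def gen (z : R) : TwoSidedIdeal R := TwoSidedIdeal.mk' {y | ∃ s : S R, y = s.1 z}
  ⟨0, by simp⟩ (by rintro _ _ ⟨s, rfl⟩ ⟨t, rfl⟩; exact ⟨s + t, rfl⟩)
  (by rintro _ ⟨s, rfl⟩; exact ⟨-s, rfl⟩)
  (by rintro x _ ⟨s, rfl⟩; exact ⟨L 0 x * s, by show _ = (L 0 x).1 (s.1 z); simp [L_apply]⟩)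
  (by rintro _ x ⟨s, rfl⟩; exact ⟨L 0 x * s, by
        show _ = (L 0 x).1 (s.1 z); simp [L_apply, mul_comm]⟩)

lemma mem_gen {z y : R} : y ∈ gen z ↔ ∃ s : S R, y = s.1 z := TwoSidedIdeal.mem_mk' _ _ _ _ _ _ _

lemma gen_ne {z : R} (h : z ≠ 0) : gen z ≠ ⊥ := fun e =>
  h ((TwoSidedIdeal.mem_bot R).mp (e ▸ mem_gen.mpr ⟨1, rfl⟩))

theorem result (R : Type) [NonUnitalCommRing R] [Finite R] :
    IsCritical R ↔ ∃ M : TwoSidedIdeal R, M ≠ ⊥ ∧ ∀ I : TwoSidedIdeal R, I ≠ ⊥ → M ≤ I := by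
  constructor
  · rintro ⟨s, t, h1, h2⟩
    obtain ⟨v, hv⟩ := not_forall.mp h2
    refine ⟨gen (s.eval v - t.eval v), gen_ne (sub_ne_zero.mpr hv), fun I hI y hy => ?_⟩
    obtain ⟨⟨s', n, x, h⟩, rfl⟩ := mem_gen.mp hy
    have := (holds_iff I s t).mp (h1 I hI) v
    show s' _ ∈ I
    rw [h]
    exact I.add_mem (I.zsmul_mem n this) (I.mul_mem_left _ _ this)
  rintro ⟨M, hM, hI⟩
  obtain ⟨m, hm, hm0⟩ : ∃ m ∈ M, m ≠ 0 := by
    by_contra hn
    push Not at hn
    exact hM (eq_bot_iff.mpr fun y hy => (TwoSidedIdeal.mem_bot R).mpr (hn y hy))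
  have : Finite (AddMonoid.End R) := Finite.of_injective _ DFunLike.coe_injective
  obtain ⟨N, hN⟩ := exists_N (S R)
  obtain ⟨k0, hk0⟩ := IsNoetherianRing.isNilpotent_nilradical (S R)
  let Q : ℕ → Prop := fun k => ∃ w : Tm, (∃ v : ℕ → R, w.eval v ≠ 0) ∧
    ∀ v : ℕ → R, ∃ s ∈ nilradical (S R) ^ k, ∃ y, w.eval v = s.1 y
  obtain ⟨k, ⟨w, ⟨v0, w1⟩, w2⟩, hk⟩ : ∃ k, Q k ∧ ¬ Q (k + 1) := by
    by_contra hn
    push Not at hn
    have h : ∀ k, Q k := fun k => Nat.rec
      ⟨.var 0, ⟨fun _ => m, hm0⟩, fun v => ⟨1, by simp, v 0, rfl⟩⟩ hn k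
    obtain ⟨w, ⟨v, hv⟩, h2⟩ := h k0
    obtain ⟨s, hs, y, e⟩ := h2 v
    rw [hk0, Ideal.zero_eq_bot, Ideal.mem_bot] at hs
    exact hv (by rw [e, hs]; rfl)
  have h1 : ∀ (v : ℕ → R) (t : S R), (t ^ (N + 1 + 1)).1 (w.eval v) = t.1 (w.eval v) := by
    rintro v ⟨t, n, x, ht⟩
    obtain ⟨f, hf⟩ := exists_zsmul n
    have e1 : ∀ (u : ℕ → R) (j : ℕ), ((fun z => Tm.add (f z) (.mul (.var 0) z))^[j] w.shift).eval u =
        (L n (u 0) ^ j).1 (w.eval fun i => u (i + 1)) := by
      intro u j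
      induction j with
      | zero => exact eval_shift u w
      | succ j ih =>
        rw [Function.iterate_succ_apply', pow_succ']
        simp only [Tm.eval, hf, ih]
        rfl
    have e2 : ∀ u : ℕ → R, (Tm.add ((fun z => Tm.add (f z) (.mul (.var 0) z))^[N + 1 + 1] w.shift)
        ((fun z => Tm.add (f z) (.mul (.var 0) z))^[1] w.shift).neg).eval u =
        (L n (u 0) ^ (N + 1 + 1) - L n (u 0)).1 (w.eval fun i => u (i + 1)) := by
      intro u
      simp only [Tm.eval, e1, pow_one, ← sub_eq_add_neg]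
      rfl
    by_contra hne
    generalize Tm.add _ _ = w' at e2
    refine hk ⟨w', ⟨fun i => Nat.casesOn i x v, ?_⟩, fun u => ?_⟩
    · rw [e2]
      have : L n x = ⟨t, n, x, ht⟩ := Subtype.ext (AddMonoidHom.ext fun y => (ht y).symm)
      show (L n x ^ (N + 1 + 1) - L n x).1 (w.eval v) ≠ 0
      rw [this]
      exact sub_ne_zero.mpr hne
    · obtain ⟨s, hs, y, e⟩ := w2 fun i => u (i + 1)
      refine ⟨s * (L n (u 0) ^ (N + 1 + 1) - L n (u 0)), ?_, y, by rw [e2, e, mul_comm s]; rfl⟩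
      rw [pow_succ]
      refine Ideal.mul_mem_mul hs (mem_nilradical.mpr ⟨N + 1, ?_⟩)
      generalize L n (u 0) = t
      rw [show t ^ (N + 1 + 1) - t = t * (t ^ (N + 1) - 1) by ring, mul_pow, pow_succ' (_ - 1),
        ← mul_assoc, mul_sub, ← pow_add, hN, mul_one, sub_self, zero_mul]
  refine ⟨w, .zero, fun I hI' => (holds_iff I _ _).mpr fun v => hI I hI' ?_, fun h => w1 (h v0)⟩
  simp only [Tm.eval, sub_zero]
  by_cases hu : w.eval v = 0
  · rw [hu]; exact M.zero_mem
  obtain ⟨t, ht⟩ := mem_gen.mp (hI _ (gen_ne hu) hm)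
  have h2 : (1 - t ^ (N + 1)).1 (w.eval v) = 0 := by
    by_contra hne
    obtain ⟨s, hs⟩ := mem_gen.mp (hI _ (gen_ne hne) hm)
    have e1 : (t ^ (N + 1)).1 m = m := by
      rw [ht]
      exact (by rw [pow_succ t (N + 1)]; rfl : _ = _).trans (h1 v t)
    apply hm0
    rw [← e1, hs]
    show (t ^ (N + 1) * (s * (1 - t ^ (N + 1)))).1 _ = 0
    rw [mul_left_comm, mul_sub, ← pow_add, hN, mul_one, sub_self, mul_zero]
    rfl
  have h3 : w.eval v = (t ^ N).1 m := by
    rw [ht]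
    exact (sub_eq_zero.mp h2).trans (by rw [pow_succ]; rfl)
  obtain ⟨n, x, h⟩ := (t ^ N).2
  rw [h3, h]
  exact M.add_mem (M.zsmul_mem n hm) (M.mul_mem_left _ _ hm)

end Pool.Agent.Results.MP_c0911c_al.Critical
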